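import Mathlib
import Pool.Agent.X142.GRW.Auto

/-!
# MP_1d885b_pr, Q1: the greedy random walk on the ladder is recurrent

Definitions (in `Pool/Agent/X142/GRW/Basic.lean` and `Ladder.lean`):
* `visited x t`: the edges traversed in the steps `x s → x (s+1)`, `s < t`;
* `opts G σ v`: the neighbours of `v` joined to `v` by an edge outside `σ`, or all the neighbours
  if there is none;
* `prob G x t y = 1 / #opts` for `y ∈ opts G (visited x t) (x t)` and `0` otherwise;
* `IsGRW G P X o`: the process `X` starts at `o` and has these transition probabilities given its
  past;
* `ladder`: the graph `ℤ × ℤ_2`.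

Proof.  Call the pair of edges between the columns `n` and `n + 1` the cut `n`.  For a target column
`2 K` the function `W = h + 1 + λ + ∑_{h ≤ n < 2 K - 1} ρ_n` of the column `h` of the walker, with
`ρ_n = 3/4` for a fresh cut, `1` for a half visited and `0` for a visited one and a nonpositive
correction `λ` depending on the edges next to the walker, is a supermartingale while
`0 < h < 2 K` (a finite check using that no vertex has exactly one visited edge), and at the first
arrival at the column `K` it is at most `(15/16) (2 K)`.  Hence each doubling of the maximal column
without a visit to column `0` costs a factor `15/16`.  On every graph the neighbours of a vertex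
visited infinitely often are visited infinitely often.
-/

open MeasureTheory Filter

namespace Pool.Agent.Results.MP_1d885b_pr.LadderRecurrent

open Pool.Agent.X142.GRW

/-- The greedy random walk on the ladder, started anywhere, exists, and almost surely returns to its
starting vertex infinitely often. -/
theorem result :
    (∀ {Ω : Type} [MeasurableSpace Ω] (P : Measure Ω) [IsProbabilityMeasure P]
      (X : ℕ → Ω → ℤ × Bool) (o : ℤ × Bool), IsGRW ladder P X o →
      ∀ᵐ ω ∂P, ∃ᶠ t in atTop, X t ω = o) ∧
    ∀ o : ℤ × Bool, ∃ (Ω : Type) (_ : MeasurableSpace Ω) (P : Measure Ω)
      (X : ℕ → Ω → ℤ × Bool), IsProbabilityMeasure P ∧ IsGRW ladder P X o :=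
  ⟨fun _ _ _ _ h => recurrent h, fun o => exists_grw ladder_nbr_nonempty o⟩

end Pool.Agent.Results.MP_1d885b_pr.LadderRecurrent
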